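import Pool.Agent.H93.EN.Targets4
import Pool.Agent.H97.EN.POL

/-!
# Bright corners, row DC1: integrated control in one corner
-/

set_option autoImplicit false

namespace Pool.Agent.H99.EN

open MeasureTheory Set Metric Filter Topology Pool.Agent.H93.EN
open Pool.Agent.H93.BL hiding T_B1 T_B2 T_B3 T_SB T_SC

/-- sectors are measurable -/
theorem dc1_meas (p a : ℂ) (ha : ‖a‖ = 1) (α r₁ r₂ : ℝ) (hα2 : α ≤ 2 * Real.pi)
    (hr : 0 ≤ r₁) :
    MeasurableSet {x : ℂ | ∃ s ∈ Ioo r₁ r₂, ∃ θ ∈ Ioo 0 α,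
      x = p + (s : ℂ) * (Complex.exp ((θ : ℂ) * Complex.I) * a)} := by
  obtain ⟨hT, hTe⟩ := Pool.Agent.H97.EN.mpT p a ha
  have hpi := Real.pi_pos
  set R : Set (ℝ × ℝ) := Ioo r₁ r₂ ×ˢ Ioo (-Real.pi) (α - Real.pi) with hR
  have hRt : R ⊆ Complex.polarCoord.target := by
    rintro ⟨s, φ⟩ ⟨h1, h2⟩
    rw [Complex.polarCoord_target]
    exact ⟨lt_of_le_of_lt hr h1.1, h2.1, by
      have := h2.2
      change φ < Real.pi
      change φ < α - Real.pi at this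
      linarith⟩
  set U : Set ℂ := Complex.polarCoord.symm '' R with hU
  have hUo : IsOpen U := by
    have : IsOpen R := isOpen_Ioo.prod isOpen_Ioo
    exact Complex.polarCoord.symm.isOpen_image_of_subset_source this (by
      rw [OpenPartialHomeomorph.symm_source]
      exact hRt)
  have himg : {x : ℂ | ∃ s ∈ Ioo r₁ r₂, ∃ θ ∈ Ioo 0 α,
      x = p + (s : ℂ) * (Complex.exp ((θ : ℂ) * Complex.I) * a)} =
      (fun z : ℂ => p + (-a) * z) '' U := by
    ext z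
    constructor
    · rintro ⟨s, hs, θ, hθ, h⟩
      refine ⟨Complex.polarCoord.symm (s, θ - Real.pi), ⟨(s, θ - Real.pi), ⟨hs, ?_, ?_⟩, rfl⟩, ?_⟩
      · change -Real.pi < θ - Real.pi
        linarith [hθ.1]
      · change θ - Real.pi < α - Real.pi
        linarith [hθ.2]
      · rw [h]
        exact Pool.Agent.H97.EN.polT p a s θ
    · rintro ⟨_, ⟨⟨s, φ⟩, ⟨hs, hφ⟩, rfl⟩, rfl⟩
      refine ⟨s, hs, φ + Real.pi, ⟨?_, ?_⟩, ?_⟩
      · have := hφ.1
        change -Real.pi < φ at this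
        linarith
      · have := hφ.2
        change φ < α - Real.pi at this
        linarith
      · have h1 := Pool.Agent.H97.EN.polT p a s (φ + Real.pi)
        rw [add_sub_cancel_right] at h1
        exact h1
  rw [himg]
  exact hTe.measurableSet_image.mpr hUo.measurableSet

/-- the integral over a sector in polar coordinates -/
theorem dc1_pol (h1 : T_POL) (p a : ℂ) (ha : ‖a‖ = 1) (α r₁ r₂ : ℝ) (hα : 0 < α)
    (hα2 : α ≤ 2 * Real.pi) (hr : 0 ≤ r₁) (hr2 : r₁ ≤ r₂) (O : Set ℂ) (hO : IsOpen O)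
    (φ : ℂ → ℝ) (hφ : ContinuousOn φ O) (hφ0 : ∀ x, 0 ≤ φ x)
    (hS : {x : ℂ | ∃ s ∈ Ioo r₁ r₂, ∃ θ ∈ Ioo 0 α,
      x = p + (s : ℂ) * (Complex.exp ((θ : ℂ) * Complex.I) * a)} ⊆ O)
    (hi : IntegrableOn φ {x : ℂ | ∃ s ∈ Ioo r₁ r₂, ∃ θ ∈ Ioo 0 α,
      x = p + (s : ℂ) * (Complex.exp ((θ : ℂ) * Complex.I) * a)}) :
    ∃ H : ℝ → ENNReal, Measurable H ∧
      (∀ s ∈ Ioo r₁ r₂, H s = ∫⁻ θ in Ioo 0 α,
        ENNReal.ofReal (φ (p + (s : ℂ) * (Complex.exp ((θ : ℂ) * Complex.I) * a))) *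
          ENNReal.ofReal s) ∧
      ENNReal.ofReal (∫ x in {x : ℂ | ∃ s ∈ Ioo r₁ r₂, ∃ θ ∈ Ioo 0 α,
        x = p + (s : ℂ) * (Complex.exp ((θ : ℂ) * Complex.I) * a)}, φ x) =
        ∫⁻ s in Ioo r₁ r₂, H s := by
  classical
  have hSm := dc1_meas p a ha α r₁ r₂ hα2 hr
  set S : Set ℂ := {x : ℂ | ∃ s ∈ Ioo r₁ r₂, ∃ θ ∈ Ioo 0 α,
      x = p + (s : ℂ) * (Complex.exp ((θ : ℂ) * Complex.I) * a)} with hSd
  set G : ℂ → ENNReal := O.piecewise (fun x => ENNReal.ofReal (φ x)) (fun _ => 0) with hG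
  have hGm : Measurable G := by
    refine ContinuousOn.measurable_piecewise ?_ continuousOn_const hO.measurableSet
    exact ENNReal.continuous_ofReal.comp_continuousOn hφ
  have hGO : ∀ x ∈ O, G x = ENNReal.ofReal (φ x) := fun x hx => by
    rw [hG, Set.piecewise_eq_of_mem _ _ _ hx]
  refine ⟨fun s => ∫⁻ θ in Ioo 0 α,
    G (p + (s : ℂ) * (Complex.exp ((θ : ℂ) * Complex.I) * a)) * ENNReal.ofReal s, ?_, ?_, ?_⟩
  · apply Measurable.lintegral_prod_right'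
      (f := fun q : ℝ × ℝ => G (p + (q.1 : ℂ) * (Complex.exp ((q.2 : ℂ) * Complex.I) * a)) *
        ENNReal.ofReal q.1)
    refine Measurable.mul (hGm.comp ?_) (ENNReal.measurable_ofReal.comp measurable_fst)
    have : Continuous fun q : ℝ × ℝ =>
        p + (q.1 : ℂ) * (Complex.exp ((q.2 : ℂ) * Complex.I) * a) := by fun_prop
    exact this.measurable
  · intro s hs
    refine setLIntegral_congr_fun measurableSet_Ioo fun θ hθ => ?_
    have hmem : p + (s : ℂ) * (Complex.exp ((θ : ℂ) * Complex.I) * a) ∈ S :=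
      ⟨s, hs, θ, hθ, rfl⟩
    change G _ * _ = _
    rw [hGO _ (hS hmem)]
  · rw [ofReal_integral_eq_lintegral_ofReal hi (ae_of_all _ hφ0)]
    have h2 : ∫⁻ x in S, ENNReal.ofReal (φ x) = ∫⁻ x in S, G x :=
      setLIntegral_congr_fun hSm fun x hx => (hGO x (hS hx)).symm
    rw [h2]
    exact h1 p a α r₁ r₂ ha hα hα2 hr hr2 G hGm

theorem dc1 (h1 : T_POL) (h2 : T_INT) (h3 : T_CA0) (h4 : T_SM) : T_DC1 := by
  intro ι D r i j α hcor hcool ε hε
  obtain ⟨hqp, hpB, hr, hα, hα2, hui, hli, hlj, hsec⟩ := id hcor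
  have hpi := Real.pi_pos
  have hlen : 0 < D.P.len j := lt_of_lt_of_le hr hlj
  have hu : ‖D.P.u j‖ = 1 := by
    have h : D.P.u j = (D.P.q j - D.P.p j) / (D.P.len j : ℂ) := rfl
    rw [h, norm_div, Complex.norm_real, Real.norm_eq_abs, abs_of_pos hlen]
    exact div_self hlen.ne'
  have hε' : 0 < ε / (480 * Real.pi + 1) := by positivity
  obtain ⟨K, C', r₁', c₁', hC', hr₁', hc₁', hc⟩ := hcool _ hε'
  have hκ := D.κpos
  refine ⟨K, 32 * Real.pi * C', min r₁' r / 16, min c₁' (D.κ / 10), by positivity,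
    by positivity, by positivity, ?_⟩
  intro t ht δ hδ hδt
  have ht0 : 0 < t := ht.1
  have ht1 : 16 * t < r₁' := by
    have := ht.2.trans_le (div_le_div_of_nonneg_right (min_le_left r₁' r) (by norm_num))
    linarith
  have ht2 : 16 * t < r := by
    have := ht.2.trans_le (div_le_div_of_nonneg_right (min_le_right r₁' r) (by norm_num))
    linarith
  have hδ1 : δ ≤ c₁' * t := hδt.trans (mul_le_mul_of_nonneg_right (min_le_left _ _) ht0.le)
  have hδ2 : δ ≤ D.κ / 10 * t :=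
    hδt.trans (mul_le_mul_of_nonneg_right (min_le_right _ _) ht0.le)
  have hSeq : Sec D.P j α t (16 * t) = {x : ℂ | ∃ s ∈ Ioo t (16 * t), ∃ θ ∈ Ioo 0 α,
      x = D.P.p j + (s : ℂ) * (Complex.exp ((θ : ℂ) * Complex.I) * D.P.u j)} := rfl
  have hmem : ∀ s ∈ Ioo t (16 * t), ∀ θ ∈ Ioo 0 α, pt D.P j s θ ∈ D.P.Ω ∧
      D.rho (pt D.P j s θ) = s := fun s hs θ hθ =>
    hsec s ⟨ht0.trans hs.1, hs.2.trans ht2⟩ θ hθ
  have hAnn : Sec D.P j α t (16 * t) ⊆ D.Ann t (16 * t) := by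
    rintro x ⟨s, hs, θ, hθ, rfl⟩
    obtain ⟨ha, hb⟩ := hmem s hs θ hθ
    exact ⟨ha, by rw [hb]; exact hs.1, by rw [hb]; exact hs.2⟩
  have hOM : Sec D.P j α t (16 * t) ⊆ D.OM δ := by
    rintro x ⟨s, hs, θ, hθ, rfl⟩
    obtain ⟨ha, hb⟩ := hmem s hs θ hθ
    refine ⟨ha, ?_⟩
    rw [hb]
    have h5 : D.κ * t < D.κ * s := mul_lt_mul_of_pos_left hs.1 hκ
    nlinarith
  have h9 : ∀ s ∈ Ioo t (16 * t), 9 * δ < D.κ * s := by
    intro s hs
    have h5 : D.κ * t < D.κ * s := mul_lt_mul_of_pos_left hs.1 hκ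
    nlinarith
  have hSm : MeasurableSet (Sec D.P j α t (16 * t)) := by
    rw [hSeq]
    exact dc1_meas (D.P.p j) (D.P.u j) hu α t (16 * t) hα2 ht0.le
  refine ⟨hAnn, hSm, ?_⟩
  obtain ⟨hOo, hac, hab, -, hk⟩ := h4 ι D δ hδ
  obtain ⟨-, -, -, -, -, -, hint⟩ := h2 ι D
  obtain ⟨hia, hih⟩ := hint δ hδ _ hOM hSm
  obtain ⟨Ha, hHam, hHa, hHaI⟩ := dc1_pol h1 (D.P.p j) (D.P.u j) hu α t (16 * t) hα hα2 ht0.le
    (by linarith) (D.OM δ) hOo (D.a δ) hac (fun x => (hab x).1) hOM hia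
  choose Hm hHmm hHm hHmI using fun m : ℤ => dc1_pol h1 (D.P.p j) (D.P.u j) hu α t (16 * t) hα
    hα2 ht0.le (by linarith) (D.OM δ) hOo (fun x => ‖D.h δ m x‖) (hk m).2.1.norm
    (fun x => norm_nonneg _) hOM (hih m).1
  rw [← hSeq] at hHaI
  have harc : ∀ m, ∀ s ∈ Ioo t (16 * t), ENNReal.ofReal (D.arc j α δ m s) ≤ Hm m s := by
    intro m s hs
    rw [hHm m s hs]
    have hs0 : 0 < s := ht0.trans hs.1
    have e1 : D.arc j α δ m s = s * ∫ θ in Ioo 0 α, ‖D.h δ m (pt D.P j s θ)‖ := by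
      unfold Dat.arc
      rw [intervalIntegral.integral_of_le hα.le, integral_Ioc_eq_integral_Ioo]
    rw [e1, ENNReal.ofReal_mul hs0.le, mul_comm,
      lintegral_mul_const' _ _ ENNReal.ofReal_ne_top]
    refine mul_le_mul_left ?_ _
    have e2 := enorm_integral_le_lintegral_enorm
      (μ := volume.restrict (Ioo 0 α)) (fun θ => ‖D.h δ m (pt D.P j s θ)‖)
    have e3 : ‖∫ θ in Ioo 0 α, ‖D.h δ m (pt D.P j s θ)‖‖ₑ =
        ENNReal.ofReal (∫ θ in Ioo 0 α, ‖D.h δ m (pt D.P j s θ)‖) :=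
      Real.enorm_eq_ofReal (integral_nonneg fun θ => norm_nonneg _)
    rw [e3] at e2
    refine e2.trans (le_of_eq (lintegral_congr fun θ => ?_))
    rw [Real.enorm_eq_ofReal (norm_nonneg _)]
    rfl
  have harc0 : ∀ m, ∀ s ∈ Ioo t (16 * t), 0 ≤ D.arc j α δ m s := fun m s hs =>
    (h3 ι D r i j α hcor δ hδ s ⟨ht0.trans hs.1, hs.2.trans ht2⟩ (h9 s hs) m).1
  set B : ℝ → ENNReal := fun s => ENNReal.ofReal (ε / (480 * Real.pi + 1)) +
    ENNReal.ofReal C' * ∑ m ∈ Finset.Icc (-(K : ℤ)) K, Hm m s with hB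
  have hHaB : ∀ s ∈ Ioo t (16 * t), Ha s ≤ ENNReal.ofReal (32 * Real.pi * t) * B s := by
    intro s hs
    rw [hHa s hs]
    have hs0 : 0 < s := ht0.trans hs.1
    have e1 : ∀ θ ∈ Ioo 0 α, ENNReal.ofReal (D.a δ (D.P.p j + (s : ℂ) *
        (Complex.exp ((θ : ℂ) * Complex.I) * D.P.u j))) * ENNReal.ofReal s ≤
        B s * ENNReal.ofReal (16 * t) := by
      intro θ hθ
      refine mul_le_mul' ?_ (ENNReal.ofReal_le_ofReal hs.2.le)
      have e2 := hc s ⟨hs0, hs.2.trans ht1⟩ δ hδ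
        (hδ1.trans (mul_le_mul_of_nonneg_left hs.1.le hc₁'.le)) θ hθ
      refine (ENNReal.ofReal_le_ofReal e2).trans ?_
      rw [ENNReal.ofReal_add hε'.le (mul_nonneg hC'.le
        (Finset.sum_nonneg fun m _ => harc0 m s hs)), ENNReal.ofReal_mul hC'.le,
        ENNReal.ofReal_sum_of_nonneg fun m _ => harc0 m s hs]
      exact add_le_add le_rfl (mul_le_mul' le_rfl (Finset.sum_le_sum fun m _ => harc m s hs))
    refine (setLIntegral_mono' measurableSet_Ioo e1).trans ?_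
    rw [setLIntegral_const, Real.volume_Ioo, sub_zero, mul_assoc, mul_comm, ←
      ENNReal.ofReal_mul (by positivity)]
    refine mul_le_mul' (ENNReal.ofReal_le_ofReal ?_) le_rfl
    nlinarith
  have hmain : ENNReal.ofReal (∫ x in Sec D.P j α t (16 * t), D.a δ x) ≤
      ENNReal.ofReal (32 * Real.pi * t) * (ENNReal.ofReal (ε / (480 * Real.pi + 1)) *
        ENNReal.ofReal (15 * t) + ENNReal.ofReal C' * ∑ m ∈ Finset.Icc (-(K : ℤ)) K,
          ENNReal.ofReal (∫ x in Sec D.P j α t (16 * t), ‖D.h δ m x‖)) := by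
    rw [hHaI]
    refine (setLIntegral_mono' measurableSet_Ioo hHaB).trans ?_
    rw [lintegral_const_mul' _ _ ENNReal.ofReal_ne_top]
    refine mul_le_mul' le_rfl ?_
    rw [hB, lintegral_add_left measurable_const, setLIntegral_const, Real.volume_Ioo,
      lintegral_const_mul' _ _ ENNReal.ofReal_ne_top,
      lintegral_finsetSum _ fun m _ => hHmm m]
    refine add_le_add (mul_le_mul' le_rfl (ENNReal.ofReal_le_ofReal (by linarith)))
      (mul_le_mul' le_rfl (Finset.sum_le_sum fun m _ => ?_))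
    rw [hSeq, ← hHmI m]
  have hS0 : ∀ m : ℤ, 0 ≤ ∫ x in Sec D.P j α t (16 * t), ‖D.h δ m x‖ := fun m =>
    integral_nonneg fun x => norm_nonneg _
  have hsum0 : 0 ≤ ∑ m ∈ Finset.Icc (-(K : ℤ)) K,
      ∫ x in Sec D.P j α t (16 * t), ‖D.h δ m x‖ := Finset.sum_nonneg fun m _ => hS0 m
  rw [← ENNReal.ofReal_sum_of_nonneg fun m _ => hS0 m, ← ENNReal.ofReal_mul hε'.le,
    ← ENNReal.ofReal_mul hC'.le, ← ENNReal.ofReal_add (by positivity) (by positivity),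
    ← ENNReal.ofReal_mul (by positivity), ENNReal.ofReal_le_ofReal_iff (by positivity)] at hmain
  refine hmain.trans ?_
  have hq : 480 * Real.pi * (ε / (480 * Real.pi + 1)) ≤ ε := by
    rw [mul_div_assoc', div_le_iff₀ (by positivity)]
    nlinarith
  have e5 : 32 * Real.pi * t * (ε / (480 * Real.pi + 1) * (15 * t) + C' *
      ∑ m ∈ Finset.Icc (-(K : ℤ)) K, ∫ x in Sec D.P j α t (16 * t), ‖D.h δ m x‖) =
      480 * Real.pi * (ε / (480 * Real.pi + 1)) * t ^ 2 + 32 * Real.pi * C' * t *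
      ∑ m ∈ Finset.Icc (-(K : ℤ)) K, ∫ x in Sec D.P j α t (16 * t), ‖D.h δ m x‖ := by
    ring
  rw [e5]
  exact add_le_add (mul_le_mul_of_nonneg_right hq (by positivity)) le_rfl

end Pool.Agent.H99.EN
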