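import Pool.Agent.H93.EN.Targets4

/-!
# Bright corners, row DEC: integrated control near the bad points
-/

set_option autoImplicit false

namespace Pool.Agent.H99.EN

open MeasureTheory Set Metric Filter Topology Pool.Agent.H93.EN
open Pool.Agent.H93.BL hiding T_B1 T_B2 T_B3 T_SB T_SC

theorem dec_min {β : Type} [Finite β] (f : β → ℝ) (hf : ∀ b, 0 < f b) :
    ∃ m > (0 : ℝ), ∀ b, m ≤ f b := by
  rcases isEmpty_or_nonempty β with h | h
  · exact ⟨1, one_pos, fun b => (h.false b).elim⟩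
  · obtain ⟨b, hb⟩ := Finite.exists_min f
    exact ⟨f b, hf b, hb⟩

/-- the angle of a corner is determined by the sides -/
theorem dec_ang {ι : Type} (D : Dat ι) (r : ℝ) (i j : ι) (α α' : ℝ) (h : D.Cor r i j α)
    (h' : D.Cor r i j α') : α = α' := by
  obtain ⟨-, -, hr, h0, h2, hu, -, hlj, -⟩ := h
  obtain ⟨-, -, -, h0', h2', hu', -, -, -⟩ := h'
  have hpi := Real.pi_pos
  have hlen : 0 < D.P.len j := lt_of_lt_of_le hr hlj
  have hun : ‖D.P.u j‖ = 1 := by
    have h : D.P.u j = (D.P.q j - D.P.p j) / (D.P.len j : ℂ) := rfl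
    rw [h, norm_div, Complex.norm_real, Real.norm_eq_abs, abs_of_pos hlen]
    exact div_self hlen.ne'
  have hu0 : D.P.u j ≠ 0 := by
    intro h
    rw [h, norm_zero] at hun
    exact zero_ne_one hun
  have e : Complex.exp ((α : ℂ) * Complex.I) = Complex.exp ((α' : ℂ) * Complex.I) := by
    have e1 := hu.symm.trans hu'
    unfold uv at e1
    exact mul_right_cancel₀ hu0 e1
  rw [Complex.exp_eq_exp_iff_exists_int] at e
  obtain ⟨n, hn⟩ := e
  have hn' : α = α' + n * (2 * Real.pi) := by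
    have h1 : (α : ℂ) * Complex.I = ((α' + n * (2 * Real.pi) : ℝ) : ℂ) * Complex.I := by
      rw [hn]
      push_cast
      ring
    exact_mod_cast mul_right_cancel₀ Complex.I_ne_zero h1
  have hn1 : (n : ℝ) < 1 := by
    by_contra hcon
    have h3 : (1 : ℝ) * (2 * Real.pi) ≤ n * (2 * Real.pi) :=
      mul_le_mul_of_nonneg_right (not_lt.mp hcon) (by positivity)
    linarith
  have hn2 : (-1 : ℝ) < n := by
    by_contra hcon
    have h3 : (n : ℝ) * (2 * Real.pi) ≤ -1 * (2 * Real.pi) :=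
      mul_le_mul_of_nonneg_right (not_lt.mp hcon) (by positivity)
    linarith
  have hn0 : n = 0 := by
    have a1 : n < 1 := by exact_mod_cast hn1
    have a2 : -1 < n := by exact_mod_cast hn2
    omega
  rw [hn0] at hn'
  simpa using hn'

theorem dec (h1 : T_COV) (h2 : T_CLB) (h3 : T_CLE) (h4 : T_DC1) (h5 : T_INT) : T_DEC := by
  classical
  intro ι _ D hgood ε hε
  obtain ⟨r₀, hr₀, hcov⟩ := h1 ι D
  have : Fintype (ι × ι) := Fintype.ofFinite _
  have hκ := D.κpos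
  set N : ℝ := (Fintype.card (ι × ι) : ℝ) with hN
  have hN0 : 0 ≤ N := Nat.cast_nonneg _
  have hε' : 0 < ε / (N + 1) := by positivity
  set S : ℝ → ι × ι → Set ℂ := fun t b =>
    {x | ∃ α, D.Cor r₀ b.1 b.2 α ∧ x ∈ Sec D.P b.2 α t (16 * t)} with hS
  have hpair : ∀ b : ι × ι, ∃ (K : ℕ) (C r₁ c₁ : ℝ), 0 < C ∧ 0 < r₁ ∧ 0 < c₁ ∧
      ∀ t ∈ Ioo 0 r₁, ∀ δ : ℝ, 0 < δ → δ ≤ c₁ * t →
      S t b ⊆ D.Ann t (16 * t) ∧ MeasurableSet (S t b) ∧
      ∫ x in S t b, D.a δ x ≤ ε / (N + 1) * t ^ 2 +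
        C * t * ∑ m ∈ Finset.Icc (-(K : ℤ)) K, ∫ x in S t b, ‖D.h δ m x‖ := by
    intro b
    by_cases hb : ∃ α, D.Cor r₀ b.1 b.2 α
    · obtain ⟨α, hα⟩ := hb
      have hcool : D.Cool b.2 α := by
        rcases hgood r₀ b.1 b.2 α hα with hg | hg | hg
        · exact h3 ι D r₀ b.1 b.2 α hα (Or.inl hg)
        · exact h3 ι D r₀ b.1 b.2 α hα (Or.inr hg)
        · exact h2 ι D r₀ b.1 b.2 α hα hg
      obtain ⟨K, C, r₁, c₁, hC, hr₁, hc₁, hmain⟩ :=
        h4 ι D r₀ b.1 b.2 α hα hcool _ hε'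
      refine ⟨K, C, r₁, c₁, hC, hr₁, hc₁, ?_⟩
      intro t ht δ hδ hδt
      have hSt : S t b = Sec D.P b.2 α t (16 * t) := by
        ext x
        constructor
        · rintro ⟨α', hα', hx⟩
          rwa [dec_ang D r₀ b.1 b.2 α α' hα hα']
        · intro hx
          exact ⟨α, hα, hx⟩
      rw [hSt]
      exact hmain t ht δ hδ hδt
    · refine ⟨0, 1, 1, 1, one_pos, one_pos, one_pos, ?_⟩
      intro t ht δ hδ hδt
      have hSt : S t b = ∅ := by
        ext x
        constructor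
        · rintro ⟨α', hα', hx⟩
          exact hb ⟨α', hα'⟩
        · intro hx
          exact hx.elim
      rw [hSt]
      refine ⟨empty_subset _, MeasurableSet.empty, ?_⟩
      simp only [Measure.restrict_empty, integral_zero_measure, Finset.sum_const_zero, mul_zero,
        add_zero]
      positivity
  choose K C r₁ c₁ hC hr₁ hc₁ hmain using hpair
  obtain ⟨rm, hrm, hrm'⟩ := dec_min r₁ hr₁
  obtain ⟨cm, hcm, hcm'⟩ := dec_min c₁ hc₁
  refine ⟨∑ b, K b, ∑ b, C b + 1, min rm (r₀ / 16), min cm (D.κ / 10), ?_, by positivity,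
    by positivity, ?_⟩
  · have : 0 ≤ ∑ b, C b := Finset.sum_nonneg fun b _ => (hC b).le
    linarith
  intro r hr δ hδ hδr
  have hr0 : 0 < r := hr.1
  have hrr : r < rm := hr.2.trans_le (min_le_left _ _)
  have hrr0 : 16 * r < r₀ := by
    have := hr.2.trans_le (min_le_right _ _)
    linarith
  have hδ1 : δ ≤ cm * r := hδr.trans (mul_le_mul_of_nonneg_right (min_le_left _ _) hr0.le)
  have hδ2 : δ ≤ D.κ / 10 * r := hδr.trans (mul_le_mul_of_nonneg_right (min_le_right _ _) hr0.le)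
  have hb : ∀ b, S r b ⊆ D.Ann r (16 * r) ∧ MeasurableSet (S r b) ∧
      ∫ x in S r b, D.a δ x ≤ ε / (N + 1) * r ^ 2 +
        C b * r * ∑ m ∈ Finset.Icc (-(K b : ℤ)) (K b), ∫ x in S r b, ‖D.h δ m x‖ := fun b =>
    hmain b r ⟨hr0, hrr.trans_le (hrm' b)⟩ δ hδ
      (hδ1.trans (mul_le_mul_of_nonneg_right (hcm' b) hr0.le))
  obtain ⟨hΩm, -, -, -, hρm, -, hint⟩ := h5 ι D
  have hAm : MeasurableSet (D.Ann r (16 * r)) := by
    have : D.Ann r (16 * r) = D.P.Ω ∩ ({x | r < D.rho x} ∩ {x | D.rho x < 16 * r}) := by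
      ext x
      rfl
    rw [this]
    exact hΩm.inter ((measurableSet_lt measurable_const hρm).inter
      (measurableSet_lt hρm measurable_const))
  have hAO : D.Ann r (16 * r) ⊆ D.OM δ := by
    rintro x ⟨ha, hb, -⟩
    refine ⟨ha, ?_⟩
    have h6 : D.κ * r < D.κ * D.rho x := mul_lt_mul_of_pos_left hb hκ
    nlinarith
  obtain ⟨hia, hih⟩ := hint δ hδ _ hAO hAm
  have hcover : D.Ann r (16 * r) ⊆ ⋃ b : ι × ι, S r b := by
    rintro x ⟨ha, hb1, hb2⟩
    obtain ⟨i, j, α, hcor, θ, hθ, hx⟩ := hcov x ha (hb2.trans hrr0)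
    rw [mem_iUnion]
    exact ⟨(i, j), α, hcor, D.rho x, ⟨hb1, hb2⟩, θ, hθ, hx⟩
  have ha0 : ∀ x, 0 ≤ D.a δ x := by
    intro x
    unfold Dat.a av
    refine mul_nonneg (by positivity) ?_
    refine intervalIntegral.integral_nonneg (by positivity) fun θ _ => ?_
    unfold Ml
    refine integral_nonneg fun y => mul_nonneg ?_ ((D.Xb x).2.1 _ _).1
    unfold chi
    refine mul_nonneg (inv_nonneg.mpr (mul_nonneg (sq_nonneg _) (integral_nonneg fun y =>
      Real.smoothTransition.nonneg _))) (Real.smoothTransition.nonneg _)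
  have hia' : ∀ b, IntegrableOn (D.a δ) (S r b) := fun b => hia.mono_set (hb b).1
  have hsum : ∫ x in D.Ann r (16 * r), D.a δ x ≤ ∑ b, ∫ x in S r b, D.a δ x := by
    have hS0 : ∀ b, 0 ≤ ∫ x in S r b, D.a δ x := fun b => integral_nonneg ha0
    rw [← ENNReal.ofReal_le_ofReal_iff (Finset.sum_nonneg fun b _ => hS0 b),
      ENNReal.ofReal_sum_of_nonneg fun b _ => hS0 b,
      ofReal_integral_eq_lintegral_ofReal hia (ae_of_all _ ha0)]
    have e1 : ∀ b, ENNReal.ofReal (∫ x in S r b, D.a δ x) =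
        ∫⁻ x in S r b, ENNReal.ofReal (D.a δ x) := fun b =>
      ofReal_integral_eq_lintegral_ofReal (hia' b) (ae_of_all _ ha0)
    rw [Finset.sum_congr rfl fun b _ => e1 b]
    refine (lintegral_mono_set hcover).trans ?_
    refine (lintegral_iUnion_le _ _).trans ?_
    rw [tsum_fintype]
  refine hsum.trans ?_
  have hh : ∀ m : ℤ, ∀ b, ∫ x in S r b, ‖D.h δ m x‖ ≤ ∫ x in D.Ann r (16 * r), ‖D.h δ m x‖ :=
    fun m b => setIntegral_mono_set (hih m).1 (ae_of_all _ fun x => norm_nonneg _)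
      (LE.le.eventuallyLE (hb b).1)
  have hh0 : ∀ m : ℤ, 0 ≤ ∫ x in D.Ann r (16 * r), ‖D.h δ m x‖ := fun m =>
    integral_nonneg fun x => norm_nonneg _
  set T : ℝ := ∑ m ∈ Finset.Icc (-((∑ b, K b : ℕ) : ℤ)) ((∑ b, K b : ℕ) : ℤ),
    ∫ x in D.Ann r (16 * r), ‖D.h δ m x‖ with hT
  have hT0 : 0 ≤ T := Finset.sum_nonneg fun m _ => hh0 m
  have hbT : ∀ b, ∫ x in S r b, D.a δ x ≤ ε / (N + 1) * r ^ 2 + C b * r * T := by
    intro b
    refine (hb b).2.2.trans (add_le_add le_rfl (mul_le_mul_of_nonneg_left ?_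
      (mul_nonneg (hC b).le hr0.le)))
    refine (Finset.sum_le_sum fun m _ => hh m b).trans ?_
    refine Finset.sum_le_sum_of_subset_of_nonneg ?_ fun m _ _ => hh0 m
    have hK : K b ≤ ∑ b, K b := Finset.single_le_sum (fun _ _ => Nat.zero_le _)
      (Finset.mem_univ b)
    have hK' : (K b : ℤ) ≤ ((∑ b, K b : ℕ) : ℤ) := by exact_mod_cast hK
    exact Finset.Icc_subset_Icc (by linarith) hK'
  refine (Finset.sum_le_sum fun b _ => hbT b).trans ?_
  rw [Finset.sum_add_distrib, Finset.sum_const, Finset.card_univ, nsmul_eq_mul, ← hN,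
    ← Finset.sum_mul, ← Finset.sum_mul]
  have e7 : N * (ε / (N + 1) * r ^ 2) ≤ ε * r ^ 2 := by
    rw [← mul_assoc]
    refine mul_le_mul_of_nonneg_right ?_ (sq_nonneg r)
    rw [mul_div_assoc', div_le_iff₀ (by positivity)]
    nlinarith
  have e8 : (∑ b, C b) * r * T ≤ (∑ b, C b + 1) * r * T := by
    refine mul_le_mul_of_nonneg_right (mul_le_mul_of_nonneg_right ?_ hr0.le) hT0
    linarith
  exact add_le_add e7 e8

end Pool.Agent.H99.EN
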